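import Pool.Agent.Helper29.BE.Iter

/-!
# One index `x` for several even numbers: `2 n_j = ^{i_j}p_x + q_j`

The question asks whether all large even numbers `2 n` are `(a, b)`-representable,
`2 n = ^{a}p_x + ^{b}p_y`. Here `b = 0`, and several even numbers are represented at once with the
same `x`: for all types `i_1, ..., i_r`, all large `M` and all `H` from `M ^ 34` up to about
`exp (M ^ (1/r))`, for at least `c H ^ r / (log log log M) ^ r` of the `r`-tuples `(2 n_1, ..., 2 n_r)`
of even numbers up to `H` there is ONE `x ≤ M` such that `2 n_j - ^{i_j}p_x` is a prime different from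
`^{i_j}p_x` for all `j`. In particular `x` can be as small as `(log H) ^ (r + 1)`, so that at least
`c' H ^ r / (log log log log H) ^ r` of the `r`-tuples have such a common index (with the same `x`, for
instance, for the pairs `(a, 0)` with all `a ≤ A`, for one and the same even number or for different
ones).

The starting result `AllPairsNearPositive` concerns single even numbers (and all pairs `(a, b)`).

The proof is the second moment method, with the sharp form of the upper bound sieve for prime pairs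
and the moments of the singular factor over differences of the starting library
(`Pool.Agent.H197R2.PG`), in a form for vectors (`Pool.Agent.Helper29.BE.main2`).
-/

set_option autoImplicit false

open Finset Filter Topology

namespace Pool.Agent.Results.MP_778b46_nt.CommonIterates

/-- The `x`-th prime, for `x ≥ 1`. -/
noncomputable def p (x : ℕ) : ℕ := Nat.nth Nat.Prime (x - 1)

/-- The `x`-th `i`-prime, for `x ≥ 1`: the `(i + 1)`-fold iterate of `p`. -/
noncomputable def iPrime (i x : ℕ) : ℕ := p^[i + 1] x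

/-- The `r`-tuples of even numbers `1 ≤ h j ≤ H` such that for some `1 ≤ x ≤ M` all the numbers `h j`
are sums of `^{i_j}p_x` and of a different prime `^{0}p_y`. -/
def represented {r : ℕ} (i : Fin r → ℕ) (M H : ℕ) : Set (Fin r → ℕ) :=
  {h | (∀ j, 1 ≤ h j ∧ h j ≤ H ∧ Even (h j)) ∧ ∃ x : ℕ, 1 ≤ x ∧ x ≤ M ∧
    ∀ j, ∃ y : ℕ, 1 ≤ y ∧ iPrime (i j) x ≠ iPrime 0 y ∧ iPrime (i j) x + iPrime 0 y = h j}

open Pool.Agent.Helper29.BE in
/-- **Common indices.** For all `r ≥ 1` and all types `i_1, ..., i_r` there are `c > 0` and `M₀` such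
that for all `M ≥ M₀` and all `H` with `M ^ 34 ≤ H` and `(log H) ^ r ≤ M - 1`: for at least
`c H ^ r / (log log log M) ^ r` of the `r`-tuples of even numbers `h_j ≤ H` there is one `x ≤ M` such
that each `h_j` is the sum of `^{i_j}p_x` and of a prime different from it. -/
theorem result (r : ℕ) (hr : 1 ≤ r) (i : Fin r → ℕ) : ∃ c : ℝ, 0 < c ∧ ∃ M₀ : ℕ, ∀ M : ℕ,
    M₀ ≤ M → ∀ H : ℕ, M ^ 34 ≤ H → Real.log H ^ r ≤ M - 1 →
    c * H ^ r / Real.log (Real.log (Real.log M)) ^ r ≤ ((represented i M H).ncard : ℝ) := by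
  classical
  set I : ℕ := ∑ j, i j with hI
  have hiI : ∀ j, i j ≤ I := fun j => single_le_sum (f := i) (fun _ _ => Nat.zero_le _) (mem_univ j)
  obtain ⟨c, hc, n₀, h⟩ := shiftsD2 r (4 * I + 4) hr
  obtain ⟨n₁, hn₁⟩ := eventually_atTop.1 ((It_le_log I).and ((ev_pow (4 * I + 3)).and
    ((tLog.eventually_ge_atTop 4).and (eventually_ge_atTop (n₀ + 6)))))
  refine ⟨c, hc, n₁, fun M hM H hH hHM => ?_⟩
  obtain ⟨g1, g2, g3, g4⟩ := hn₁ M hM
  have hM6 : (6 : ℝ) ≤ M := by exact_mod_cast (by omega : 6 ≤ M)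
  have hM0 : (0 : ℝ) < M := by linarith
  have hL0 : 0 < Real.log (M : ℝ) := by linarith
  set T : Finset ℕ := Icc 2 M with hT
  have hTm : ∀ x ∈ T, 2 ≤ x ∧ x ≤ M := fun x hx => mem_Icc.1 hx
  have hTc : (#T : ℝ) = M - 1 := by
    rw [hT, Nat.card_Icc]
    have e1 : M + 1 - 2 = M - 1 := by omega
    rw [e1, Nat.cast_sub (by omega)]
    norm_num
  set Y : ℕ := It I M with hY
  have hYn2 : Y ≤ M ^ 2 := by
    have h1 : (Y : ℝ) ≤ (M : ℝ) ^ 2 := by
      calc (Y : ℝ) ≤ M * Real.log M ^ (4 * I + 3) := g1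
        _ ≤ M * M := mul_le_mul_of_nonneg_left g2 hM0.le
        _ = (M : ℝ) ^ 2 := by ring
    exact_mod_cast h1
  have h1 := h M (by omega) Y H (le_It I M) (by
      calc Y ^ 17 ≤ (M ^ 2) ^ 17 := Nat.pow_le_pow_left hYn2 17
        _ = M ^ 34 := by ring
        _ ≤ H := hH) T (fun j x => It (i j) x) (fun _ => false) (by
    intro j x hx y hy hxy
    obtain ⟨hx1, hx2⟩ := hTm x (mem_coe.1 hx)
    obtain ⟨hy1, hy2⟩ := hTm y (mem_coe.1 hy)
    exact It_inj (i j) (by omega) (by omega) hxy) (by
    intro j x hx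
    obtain ⟨hx1, hx2⟩ := hTm x hx
    exact ⟨Nat.odd_iff.2 (It_odd (i j) hx1).2,
      (It_mono (i j) hx2).trans (It_le_of_le (hiI j) M)⟩)
    (by rw [hTc]; exact hHM) (by
      rw [hTc]
      calc 2 * (Y : ℝ) ≤ 2 * (M * Real.log M ^ (4 * I + 3)) := by linarith
        _ = Real.log M ^ (4 * I + 3) * 4 * (M / 2) := by ring
        _ ≤ Real.log M ^ (4 * I + 3) * Real.log M * (M - 1) := by
            gcongr
            linarith
        _ = Real.log M ^ (4 * I + 4) * (M - 1) := by ring)
  refine h1.trans ?_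
  apply Nat.cast_le.2
  rw [← Set.ncard_coe_finset]
  apply Set.ncard_le_ncard
  · intro h hh
    rw [mem_coe] at hh
    unfold Sh2 at hh
    rw [mem_filter, Fintype.mem_piFinset] at hh
    obtain ⟨h2, x, hx, h3⟩ := hh
    obtain ⟨hx1, hx2⟩ := hTm x hx
    refine ⟨fun j => ?_, x, by omega, hx2, fun j => ?_⟩
    · have h4 := h2 j
      rw [mem_filter, mem_Icc] at h4
      exact ⟨h4.1.1, h4.1.2, h4.2⟩
    · have h4 := h3 j
      rw [if_neg (by simp)] at h4
      obtain ⟨h5, h6⟩ := h4
      change 2 * It (i j) x < h j at h5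
      change (h j - It (i j) x).Prime at h6
      have e0 : iPrime (i j) x = It (i j) x := rfl
      set q : ℕ := h j - It (i j) x with hq
      have hpq : iPrime 0 (Nat.count Nat.Prime q + 1) = q := by
        change Nat.nth Nat.Prime (Nat.count Nat.Prime q + 1 - 1) = q
        rw [Nat.add_sub_cancel]
        exact Nat.nth_count h6
      refine ⟨Nat.count Nat.Prime q + 1, by omega, ?_, ?_⟩
      · rw [hpq, e0]
        omega
      · rw [hpq, e0]
        omega
  · apply (Finset.finite_toSet (Fintype.piFinset (fun _ : Fin r => Icc 1 H))).subset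
    rintro h ⟨h2, -⟩
    rw [mem_coe, Fintype.mem_piFinset]
    intro j
    rw [mem_Icc]
    exact ⟨(h2 j).1, (h2 j).2.1⟩

end Pool.Agent.Results.MP_778b46_nt.CommonIterates
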