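import Pool.Agent.V11251.DS.ArbC

/-!
# Palindromes as sums of an iterated prime-indexed prime and a prime

The analytic input (the laws of the random integers, second moments of the error for one form with arbitrary weights) is
in the starting files `Pool.Agent.H373R2.T7`, `Pool.Agent.W93`, `Pool.Agent.TH872`; new are the systems of several forms
with arbitrary weights and the passage to primes (`Pool.Agent.V11251.DS`).
-/

set_option autoImplicit false

namespace Pool.Agent.Results.MP_778b46_nt.PalindromicIterates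

open Finset

/-- `v` is a palindrome with exactly `k` digits in base `b`: the digit number `j` (which is
`v / b ^ j % b`) is equal to the digit number `k - 1 - j`, for all `j < k`. -/
def IsPalindrome (b k v : ℕ) : Prop :=
  b ^ (k - 1) ≤ v ∧ v < b ^ k ∧ ∀ j < k, v / b ^ j % b = v / b ^ (k - 1 - j) % b

open Classical in
/-- The palindromes with exactly `k` digits in base `b`. -/
noncomputable def pal (b k : ℕ) : Finset ℕ := (range (b ^ k)).filter (IsPalindrome b k)

open Classical in
/-- The sieve model of the indicator function of the primes: `1 / (log x ∏_{p ≤ z} (1 - 1 / p))` if `x ≥ 2` has no prime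
factor `≤ z`, and `0` if `x = 0` or if `x` has a prime factor `≤ z` (for `x = 1` the logarithm is replaced by `log 2`). -/
noncomputable def model (z x : ℕ) : ℝ :=
  if 1 ≤ x ∧ ∀ p : ℕ, p.Prime → p ≤ z → ¬ p ∣ x then
    1 / (Real.log (max x 2 : ℕ) * ∏ p ∈ (Icc 1 z).filter Nat.Prime, (1 - 1 / (p : ℝ))) else 0

/-- The `x`-th prime `p(x)`, with `p(1) = 2`. -/
noncomputable def pr (x : ℕ) : ℕ := Nat.nth Nat.Prime (x - 1)

/-- The numbers `p(p(...p(x)...))` with `a + 1` applications of `p`, `x ≥ 1`. -/
def iterated (a : ℕ) : Set ℕ := {q | ∃ x, 1 ≤ x ∧ pr^[a + 1] x = q}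

open Classical in
/-- The `q ≤ X` of the form `p(p(...p(x)...))`, with `a + 1` applications of `p`. -/
noncomputable def upTo (a X : ℕ) : Finset ℕ := (Icc 1 X).filter (fun q => q ∈ iterated a)

/-- The `q ≤ X` of this form for which all the numbers `Y i - q` are primes. For `2 X < Y i` and even `Y i` this gives
representations of the kind `(a, 0)` of the problem. -/
noncomputable def common {s : ℕ} (a : ℕ) (Y : Fin s → ℕ) (X : ℕ) : Finset ℕ :=
  (upTo a X).filter (fun q => ∀ i, (Y i - q).Prime)

/-- For all `a < L` and `X ≤ N`, the number of the `q ≤ X` of the form `p(p(...p(x)...))` with `a + 1` applications of `p`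
for which all the `Y i - q` are primes is equal to the sum of the products of the models of `Y i - q` over all such
`q ≤ X`, up to an error of at most `N / log ^ U N`. -/
def Good {s : ℕ} (z U L N : ℕ) (Y : Fin s → ℕ) : Prop :=
  ∀ a < L, ∀ X ≤ N, |((common a Y X).card : ℝ) - ∑ q ∈ upTo a X, ∏ i, model z (Y i - q)| ≤ N / Real.log N ^ U

open Classical in
/-- Let `s`, bases `b i ≥ 2` and `κ i ≥ 1` (`i < s`), `B`, `T` and `U` be fixed, let `E` be a sufficiently large exponent,
let `N` be large, `log ^ E N ≤ z ≤ log ^ (E + 1) N`, let `k i` be lengths with `N / B ≤ b i ^ k i ≤ B N`, and let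
`0 ≤ c i ≤ B N`. Then all the vectors `(v 1, ..., v s)` of palindromes `v i` with exactly `k i` digits in base `b i`, with
the exception of a proportion of at most `1 / log ^ U N` of these vectors, have the following property, for all
`a < L`, `L ≤ log ^ T N`, and all `X ≤ N`: the number of the `q ≤ X` of the form `p(p(...p(x)...))` (`a + 1` applications of
`p`, where `p(x)` is the `x`-th prime) for which all the numbers `Y i - q`, `Y i = c i + κ i v i`, are primes is the number
predicted by the sieve model, up to an error of at most `N / log ^ U N`: the sum, over the `q ≤ X` of this form for which no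
`Y i - q` has a prime factor `≤ z`, of the products of the `1 / (log (Y i - q) ∏_{p ≤ z} (1 - 1 / p))`. -/
theorem result (s : ℕ) (b : Fin s → ℕ) (hb : ∀ i, 2 ≤ b i) (κ : Fin s → ℕ) (hκ : ∀ i, 1 ≤ κ i) (B T U : ℕ) :
    ∃ E₀ : ℕ, ∀ E : ℕ, E₀ ≤ E → ∃ N₀ : ℕ, ∀ N, N₀ ≤ N → ∀ k : Fin s → ℕ, (∀ i, N ≤ B * b i ^ k i ∧ b i ^ k i ≤ B * N) →
      ∀ c : Fin s → ℕ, (∀ i, c i ≤ B * N) → ∀ z : ℕ, Real.log N ^ E ≤ z → (z : ℝ) ≤ Real.log N ^ (E + 1) →
      ∀ L : ℕ, (L : ℝ) ≤ Real.log N ^ T →
      (((Fintype.piFinset fun i => pal (b i) (k i)).filter fun v => ¬ Good z U L N (fun i => c i + κ i * v i)).card : ℝ) ≤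
      ((Fintype.piFinset fun i => pal (b i) (k i)).card : ℝ) / Real.log N ^ U := by
  obtain ⟨E₀, h⟩ := Pool.Agent.V11251.DS.set_pal s b hb (fun i => (κ i : ℤ)) (fun _ => -1)
    (fun i => by have := hκ i; exact_mod_cast (by omega : κ i ≠ 0)) (fun _ => by norm_num) B T U
  refine ⟨E₀, fun E hE => ?_⟩
  obtain ⟨N₀, h1⟩ := h E hE
  refine ⟨N₀ + 1, fun N hN k hk c hc z hz1 hz2 L hL => ?_⟩
  have e1 : (Fintype.piFinset fun i => pal (b i) (k i)) =
      Fintype.piFinset (fun i => Pool.Agent.TH872.Mir.Pals (b i) (k i)) := by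
    congr 1
  rw [e1]
  refine h1 N (by omega) k (fun i => ⟨(hk i).2, (hk i).1⟩) (fun i => (c i : ℤ)) (fun i => by rw [abs_of_nonneg (by positivity)]; exact_mod_cast hc i) z hz1 hz2 L hL (fun l => iterated l)
    (fun v => Good z U L N (fun i => c i + κ i * v i)) (fun v hv => ?_)
  intro l hl X hX
  have h2 := hv l hl X hX
  have e2 : ∀ i, (((c i + κ i * v i : ℕ)) : ℤ) = (c i : ℤ) + (κ i : ℤ) * (((v i : ℕ) : ℕ) : ℤ) := fun i => by
    push_cast; rfl
  rw [Pool.Agent.V11251.DS.DC_set' _ X z _ _ (upTo l X) (common l (fun i => c i + κ i * v i) X)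
    (fun q => ∏ i, model z (c i + κ i * v i - q))] at h2
  · exact h2
  · intro n
    unfold upTo
    rw [mem_filter]
  · intro n
    unfold common upTo
    rw [mem_filter, mem_filter, and_assoc]
    apply and_congr Iff.rfl
    apply and_congr Iff.rfl
    apply forall_congr'
    intro i
    rw [← e2]
    have h3 : (-1 * (n : ℤ) + ((c i + κ i * v i : ℕ) : ℤ)).toNat = c i + κ i * v i - n := by omega
    rw [h3]
  · intro n _
    apply prod_congr rfl
    intro i _
    rw [← e2, Pool.Agent.V11251.DS.Mo_sub]
    rfl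

end Pool.Agent.Results.MP_778b46_nt.PalindromicIterates
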