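import Pool.Agent.Results.MP_778b46_nt.AllPairsNearPositive
import Pool.Agent.Results.MP_778b46_nt.MinExponent
import Pool.Agent.V11285.SU

/-!
# Iterated prime-indexed primes: the members of sparse sequences

For `c > 1` and all `α > 0` outside a set of Hausdorff dimension less than `1`, for all `a`, `b`: for at least
`c₁ N / ((log log N) ^ (2 b) log log log N)` of the `n ≤ N`, and also for at least `c₁ N / (log log N) ^ (b + ε)` of the
`n ≤ N`, the number `2 ⌊α n ^ c⌋` is `(a, b)`-representable.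
-/

set_option autoImplicit false

namespace Pool.Agent.Results.MP_778b46_nt.SparseSequences

open Filter
open Pool.Agent.V11285

/-- `2 n` is the sum of two distinct numbers, an `(a + 1)`-fold iterated prime and a `(b + 1)`-fold iterated prime. -/
def Rep (a b n : ℕ) : Prop :=
  ∃ u v : ℕ, 0 < u ∧ 0 < v ∧
    Nat.iterate (fun k : ℕ => Nat.nth Nat.Prime (k - 1)) (a + 1) u ≠
      Nat.iterate (fun k : ℕ => Nat.nth Nat.Prime (k - 1)) (b + 1) v ∧
    Nat.iterate (fun k : ℕ => Nat.nth Nat.Prime (k - 1)) (a + 1) u +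
      Nat.iterate (fun k : ℕ => Nat.nth Nat.Prime (k - 1)) (b + 1) v = 2 * n

/-- **The members of sparse sequences.** -/
theorem result (c : ℝ) (hc : 1 < c) :
    ∃ E : Set ℝ, dimH E < 1 ∧ ∀ α : ℝ, 0 < α → α ∉ E → ∀ a b : ℕ,
      (∃ c₁ : ℝ, 0 < c₁ ∧ ∀ᶠ N : ℕ in atTop,
        c₁ * N / (Real.log (Real.log N) ^ (2 * b) * Real.log (Real.log (Real.log N))) ≤
          ({n : ℕ | 1 ≤ n ∧ n ≤ N ∧ Rep a b ⌊α * (n : ℝ) ^ c⌋₊}.ncard : ℝ)) ∧
      ∀ ε : ℝ, 0 < ε → ∃ c₁ : ℝ, 0 < c₁ ∧ ∀ᶠ N : ℕ in atTop,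
        c₁ * N / Real.log (Real.log N) ^ ((b : ℝ) + ε) ≤
          ({n : ℕ | 1 ≤ n ∧ n ≤ N ∧ Rep a b ⌊α * (n : ℝ) ^ c⌋₊}.ncard : ℝ) := by
  have hc0 : 0 < c := by linarith
  obtain ⟨E, hE, hs⟩ := SS.slow c hc (fun i : ℕ × ℕ => Rep i.1 i.2)
  refine ⟨E, hE, fun α hα hαE a b => ⟨?_, fun ε hε => ?_⟩⟩
  · obtain ⟨κ₀, hκ₀, h⟩ := AllPairsNearPositive.result a b
    have p1 : ∀ᶠ x : ℕ in atTop,
        0 < Real.log (Real.log (x : ℝ)) ^ (2 * b) * Real.log (Real.log (Real.log (x : ℝ))) := by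
      filter_upwards [SU.t2.eventually (eventually_gt_atTop 0), SU.t3.eventually (eventually_gt_atTop 0)] with x q1 q2
      positivity
    have p2 : ∀ η : ℝ, 0 < η → ∀ᶠ x : ℕ in atTop,
        Real.log (Real.log (x : ℝ)) ^ (2 * b) * Real.log (Real.log (Real.log (x : ℝ))) ≤ (x : ℝ) ^ η := by
      intro η hη
      have hη' : 0 < η / (2 * b + 1) := by positivity
      filter_upwards [SU.below (η / (2 * b + 1)) hη', SU.t2.eventually (eventually_gt_atTop 0),
        SU.t3.eventually (eventually_gt_atTop 0)] with x q1 q3 q4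
      calc Real.log (Real.log (x : ℝ)) ^ (2 * b) * Real.log (Real.log (Real.log (x : ℝ)))
          ≤ ((x : ℝ) ^ (η / (2 * b + 1))) ^ (2 * b) * (x : ℝ) ^ (η / (2 * b + 1)) :=
            mul_le_mul (pow_le_pow_left₀ q3.le q1.1 _) q1.2.1 q4.le (by positivity)
        _ = (x : ℝ) ^ η := by
            rw [← pow_succ, ← Real.rpow_natCast, ← Real.rpow_mul (Nat.cast_nonneg _)]
            congr 1
            push_cast
            field_simp
    have h1 := hs α hα hαE (a, b) (κ₀ / 2)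
      (fun x : ℕ => Real.log (Real.log (x : ℝ)) ^ (2 * b) * Real.log (Real.log (Real.log (x : ℝ)))) (by positivity)
      p1 p2 (SU.drop_zero (Rep a b) κ₀ _ hκ₀ p1 p2 h)
    refine ⟨κ₀ / 2 / (4 * c) / 2 ^ (2 * b + 1), by positivity, ?_⟩
    have hX := SS.tendsto_X hα hc0
    filter_upwards [h1, SS.logs_X hα hc0, SU.t2.eventually (eventually_gt_atTop 0),
      SU.t3.eventually (eventually_gt_atTop 0), (SU.t2.comp hX).eventually (eventually_gt_atTop 0),
      (SU.t3.comp hX).eventually (eventually_gt_atTop 0)] with N g1 g2 g3 g4 g5 g6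
    refine le_trans ?_ g1
    simp only [Function.comp_apply] at g5 g6
    have g7 : Real.log (Real.log (⌊α * (N : ℝ) ^ c⌋₊ : ℕ)) ^ (2 * b) *
        Real.log (Real.log (Real.log (⌊α * (N : ℝ) ^ c⌋₊ : ℕ))) ≤
        2 ^ (2 * b + 1) * (Real.log (Real.log N) ^ (2 * b) * Real.log (Real.log (Real.log N))) := by
      calc _ ≤ (2 * Real.log (Real.log N)) ^ (2 * b) * (2 * Real.log (Real.log (Real.log N))) :=
            mul_le_mul (pow_le_pow_left₀ g5.le g2.1 _) g2.2.1 g6.le (by positivity)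
        _ = _ := by
            rw [mul_pow, pow_succ]
            ring
    calc κ₀ / 2 / (4 * c) / 2 ^ (2 * b + 1) * N /
          (Real.log (Real.log N) ^ (2 * b) * Real.log (Real.log (Real.log N)))
        = κ₀ / 2 / (4 * c) * N /
          (2 ^ (2 * b + 1) * (Real.log (Real.log N) ^ (2 * b) * Real.log (Real.log (Real.log N)))) := by
          rw [div_mul_eq_mul_div, div_div]
      _ ≤ _ := div_le_div_of_nonneg_left (by positivity) (by positivity) g7
  · have hb : 0 < (b : ℝ) + ε := by positivity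
    have p1 : ∀ᶠ x : ℕ in atTop, 0 < Real.log (Real.log (x : ℝ)) ^ ((b : ℝ) + ε) := by
      filter_upwards [SU.t2.eventually (eventually_gt_atTop 0)] with x q1
      positivity
    have p2 : ∀ η : ℝ, 0 < η → ∀ᶠ x : ℕ in atTop, Real.log (Real.log (x : ℝ)) ^ ((b : ℝ) + ε) ≤ (x : ℝ) ^ η := by
      intro η hη
      filter_upwards [SU.below (η / ((b : ℝ) + ε)) (by positivity), SU.t2.eventually (eventually_gt_atTop 0)]
        with x q1 q3
      calc Real.log (Real.log (x : ℝ)) ^ ((b : ℝ) + ε) ≤ ((x : ℝ) ^ (η / ((b : ℝ) + ε))) ^ ((b : ℝ) + ε) :=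
            Real.rpow_le_rpow q3.le q1.1 hb.le
        _ = (x : ℝ) ^ η := by
            rw [← Real.rpow_mul (Nat.cast_nonneg _)]
            congr 1
            field_simp
    have h := MinExponent.result a b ε hε
    have h1 := hs α hα hαE (a, b) (1 / 2) (fun x : ℕ => Real.log (Real.log (x : ℝ)) ^ ((b : ℝ) + ε)) (by positivity)
      p1 p2 (SU.drop_zero (Rep a b) 1 _ one_pos p1 p2 (h.mono fun x hx => by rw [one_mul]; exact hx))
    refine ⟨1 / 2 / (4 * c) / 2 ^ ((b : ℝ) + ε), by positivity, ?_⟩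
    have hX := SS.tendsto_X hα hc0
    filter_upwards [h1, SS.logs_X hα hc0, SU.t2.eventually (eventually_gt_atTop 0),
      (SU.t2.comp hX).eventually (eventually_gt_atTop 0)] with N g1 g2 g3 g5
    refine le_trans ?_ g1
    simp only [Function.comp_apply] at g5
    have g7 : Real.log (Real.log (⌊α * (N : ℝ) ^ c⌋₊ : ℕ)) ^ ((b : ℝ) + ε) ≤
        2 ^ ((b : ℝ) + ε) * Real.log (Real.log N) ^ ((b : ℝ) + ε) := by
      calc _ ≤ (2 * Real.log (Real.log N)) ^ ((b : ℝ) + ε) := Real.rpow_le_rpow g5.le g2.1 hb.le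
        _ = _ := Real.mul_rpow (by norm_num) g3.le
    calc 1 / 2 / (4 * c) / 2 ^ ((b : ℝ) + ε) * N / Real.log (Real.log N) ^ ((b : ℝ) + ε)
        = 1 / 2 / (4 * c) * N / (2 ^ ((b : ℝ) + ε) * Real.log (Real.log N) ^ ((b : ℝ) + ε)) := by
          rw [div_mul_eq_mul_div, div_div]
      _ ≤ _ := div_le_div_of_nonneg_left (by positivity) (by positivity) g7

end Pool.Agent.Results.MP_778b46_nt.SparseSequences
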